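import Pool.Agent.Lib.TGJ_h25.TopDefs
import Pool.Agent.Lib.TG_h35.R12core
import Pool.Agent.Lib.TG_h86.R12b
import Pool.Agent.Lib.TGJ_h88.Prop
import Pool.Agent.Lib.TGJ.RamInv
import Pool.Agent.Lib.TG15.LemD
import Pool.Agent.Lib.TGBC_h95.Point

/-!
# TANK G, block C, row R12 (c): general position gives the local bounds (row GP of the assembly)
-/

set_option autoImplicit false

namespace Pool.Agent.TGTop

open Pool.Agent.TG (Ov ZDim IsMin IsModel Fin' NV ncl RV)
open Pool.Agent.TG15 (Tp hx tup)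
open Pool.Agent.TGJ
open Pool.Agent.TGBC (C₁ IsResOf PtOut)
open Pool.Agent.TGBC74 (T₀)
open Pool.Agent.TGFOD

universe u

variable {k K : Type u} [Field k] [Field K] [Algebra k K]

/-! ### Linear disjointness -/

section LD

variable {κ : Subfield k} {E : IntermediateField κ K} {n : ℕ} {x : Fin n → K}

/-- Elements of `E` which are `k`-combinations of elements of `E` are `κ`-combinations. -/
theorem mem_span_of_FD (h : FD κ E x) {S : Set K} (hS : S ⊆ E) {v : K} (hv : v ∈ E)
    (hvS : v ∈ Submodule.span k S) : v ∈ Submodule.span κ S := by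
  obtain ⟨b, hbS, hbsp, hbli⟩ := exists_linearIndependent κ S
  by_contra hcon
  have hvb : v ∉ Submodule.span κ b := by rwa [hbsp]
  have hli : LinearIndepOn κ id b := hbli
  have hins : LinearIndepOn κ id (insert v b) := hli.id_insert hvb
  have hmem : ∀ i : (insert v b : Set K), (i : K) ∈ E := by
    rintro ⟨i, hi⟩
    rcases Set.mem_insert_iff.1 hi with rfl | hi
    · exact hv
    · exact hS (hbS hi)
  have h1 : LinearIndependent κ (fun i : (insert v b : Set K) => (⟨i, hmem i⟩ : E)) :=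
    LinearIndependent.of_comp E.val.toLinearMap hins
  have h2 : LinearIndepOn k id (insert v b) :=
    linearIndependent_of_injective h.pm_injective h1
  have hvb' : v ∉ b := fun hh => hvb (Submodule.subset_span hh)
  refine ((linearIndepOn_id_insert hvb').1 h2).2 ?_
  refine Submodule.span_le.2 (fun y hy => ?_) hvS
  have h3 : y ∈ Submodule.span κ b := hbsp ▸ Submodule.subset_span hy
  exact Submodule.span_le_restrictScalars κ k b h3

/-- The span of `S ⊆ E` over `κ` is determined by the span over `k`. -/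
theorem span_eq_of_FD (h : FD κ E x) {S T : Set K} (hS : S ⊆ E) (hT : T ⊆ E)
    (hST : Submodule.span k S = Submodule.span k T) :
    Submodule.span κ S = Submodule.span κ T := by
  refine le_antisymm (Submodule.span_le.2 fun y hy => ?_) (Submodule.span_le.2 fun y hy => ?_)
  · exact mem_span_of_FD h hT (hS hy) (hST ▸ Submodule.subset_span hy)
  · exact mem_span_of_FD h hS (hT hy) (hST ▸ Submodule.subset_span hy)

open scoped Pointwise in
theorem pow_subset_of_FD {S : Set K} (hS : S ⊆ E) (N : ℕ) : S ^ N ⊆ (E : Set K) := by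
  induction N with
  | zero =>
    rw [pow_zero]
    rintro y rfl
    exact one_mem E
  | succ N ih =>
    rw [pow_succ]
    rintro _ ⟨a, ha, b, hb, rfl⟩
    exact mul_mem (ih ha) (hS hb)

/-- A family in `E` which spans the power of the model over `k` spans it over `κ`. -/
theorem span_pow_of_FD (h : FD κ E x) {S T : Set K} (hS : S ⊆ E) (hT : T ⊆ E) {N : ℕ}
    (hST : Submodule.span k T = Submodule.span k S ^ N) :
    Submodule.span κ T = Submodule.span κ S ^ N := by
  rw [Submodule.span_pow] at hST ⊢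
  exact span_eq_of_FD h hT (pow_subset_of_FD hS N) hST

end LD

/-! ### Points -/

section Pt

variable {V : ValuationSubring K} {H : Submodule k K}

/-- The elements `w j - s j • w b` span `hx V H`. -/
theorem span_sub {h : ℕ} {w : Fin h → K} (hH : H = Submodule.span k (Set.range w))
    {b : Fin h} (hb : IsMin V H (w b)) {s : Fin h → k}
    (hs : ∀ i, V.valuation (w i / w b - algebraMap k K (s i)) < 1) :
    Submodule.span k (Set.range fun j => w j - s j • w b) = hx V H := by
  have hwH : ∀ i, w i ∈ H := fun i => by rw [hH]; exact Submodule.subset_span ⟨i, rfl⟩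
  have hmem : ∀ i, w i - s i • w b ∈ hx V H := by
    intro i
    refine TGBC95.mem_hx_of_div_lt hb (sub_mem (hwH i) (H.smul_mem _ (hwH b))) ?_
    have h1 : (w i - s i • w b) / w b = w i / w b - algebraMap k K (s i) := by
      rw [sub_div, Algebra.smul_def, mul_div_assoc, div_self hb.ne, mul_one]
    rw [h1]
    exact hs i
  refine le_antisymm (Submodule.span_le.2 ?_) ?_
  · rintro _ ⟨i, rfl⟩
    exact hmem i
  · intro y hy
    have h1 : y ∈ Submodule.span k (Set.range w) := hH ▸ hy.1
    obtain ⟨c, rfl⟩ := (Submodule.mem_span_range_iff_exists_fun k).1 h1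
    have h2 : ∑ i, c i • w i = ∑ i, c i • (w i - s i • w b) + (∑ i, c i * s i) • w b := by
      simp only [smul_sub, Finset.sum_sub_distrib, Finset.sum_smul, mul_smul]
      ring
    have h3 : ∑ i, c i • (w i - s i • w b) ∈ hx V H :=
      Submodule.sum_mem _ fun i _ => Submodule.smul_mem _ _ (hmem i)
    have h4 : (∑ i, c i * s i) • w b ∈ hx V H := by
      have h5 := sub_mem hy h3
      rw [h2, add_sub_cancel_left] at h5
      exact h5
    have h5 : ∑ i, c i * s i = 0 := by
      by_contra hne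
      have h6 : w b ∈ hx V H := by
        have h7 := (hx V H).smul_mem (∑ i, c i * s i)⁻¹ h4
        rwa [smul_smul, inv_mul_cancel₀ hne, one_smul] at h7
      exact (TGBC95.isMin_iff_notMem_hx hb.mem).1 hb h6
    rw [h2, h5, zero_smul, add_zero]
    exact Submodule.sum_mem _ fun i _ => Submodule.smul_mem _ _ (Submodule.subset_span ⟨i, rfl⟩)

/-- The tuple at the point: `g 0` is minimal, `g (l + 1)` vanishes. -/
theorem tup_min {f₀ : K} (hf₀ : IsMin V H f₀) {h : ℕ} {e : Fin h → K} (he : ∀ j, e j ∈ hx V H)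
    {m : ℕ} (c : Fin (m + 1) × Fin h → k) : IsMin V H (tup f₀ e c 0) := by
  have hlin : ∑ j, c (0, j) • e j ∈ hx V H :=
    Submodule.sum_mem _ fun j _ => Submodule.smul_mem _ _ (he j)
  have h3 : tup f₀ e c 0 = f₀ + ∑ j, c (0, j) • e j := by
    rw [tup, if_pos rfl]
  rw [h3]
  refine (TGBC95.isMin_iff_notMem_hx (add_mem hf₀.mem hlin.1)).2 fun hcon => ?_
  have h4 := sub_mem hcon hlin
  rw [add_sub_cancel_right] at h4
  exact (TGBC95.isMin_iff_notMem_hx hf₀.mem).1 hf₀ h4

theorem tup_succ_mem {f₀ : K} {h : ℕ} {e : Fin h → K} (he : ∀ j, e j ∈ hx V H)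
    {m : ℕ} (c : Fin (m + 1) × Fin h → k) (l : Fin m) : tup f₀ e c l.succ ∈ hx V H := by
  rw [tup, if_neg (Fin.succ_ne_zero l), zero_add]
  exact Submodule.sum_mem _ fun j _ => Submodule.smul_mem _ _ (he j)

theorem isResOf_of_resAt (hV : ZDim k V) {S : Subalgebra k K} {res : S →ₐ[k] k}
    (h : ResAt V res) : IsResOf V res := by
  intro s
  constructor
  · intro h0
    have h1 := h s
    rwa [h0, map_zero, sub_zero] at h1
  · intro hs
    by_contra hne
    have h1 : V.valuation (algebraMap k K (res s)) < 1 := by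
      have h2 : algebraMap k K (res s) = (s : K) - ((s : K) - algebraMap k K (res s)) := by ring
      rw [h2]
      exact (V.valuation.map_sub _ _).trans_lt (max_lt hs (h s))
    have h3 : V.valuation (algebraMap k K (res s)⁻¹) ≤ 1 :=
      (V.valuation_le_one_iff _).2 (hV.ov _)
    have h4 : V.valuation (algebraMap k K (res s) * algebraMap k K (res s)⁻¹) < 1 := by
      rw [map_mul]
      calc V.valuation (algebraMap k K (res s)) * V.valuation (algebraMap k K (res s)⁻¹)
          ≤ V.valuation (algebraMap k K (res s)) * 1 := by gcongr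
        _ < 1 := by rwa [mul_one]
    rw [← map_mul, mul_inv_cancel₀ hne, map_one, map_one] at h4
    exact lt_irrefl _ h4

/-- Residues are unique. -/
theorem res_unique' (hV : Ov k V) {z : K} {c c' : k}
    (h : V.valuation (z - algebraMap k K c) < 1) (h' : V.valuation (z - algebraMap k K c') < 1) :
    c = c' := by
  by_contra hne
  have h1 : V.valuation (algebraMap k K (c - c')) < 1 := by
    have h2 : algebraMap k K (c - c') =
        (z - algebraMap k K c') - (z - algebraMap k K c) := by rw [map_sub]; ring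
    rw [h2]
    exact (V.valuation.map_sub _ _).trans_lt (max_lt h' h)
  have h3 : V.valuation (algebraMap k K (c - c')⁻¹) ≤ 1 := (V.valuation_le_one_iff _).2 (hV _)
  have h4 : V.valuation (algebraMap k K (c - c') * algebraMap k K (c - c')⁻¹) < 1 := by
    rw [map_mul]
    calc V.valuation (algebraMap k K (c - c')) * V.valuation (algebraMap k K (c - c')⁻¹)
        ≤ V.valuation (algebraMap k K (c - c')) * 1 := by gcongr
      _ < 1 := by rwa [mul_one]
  rw [← map_mul, mul_inv_cancel₀ (sub_ne_zero.2 hne), map_one, map_one] at h4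
  exact lt_irrefl _ h4

end Pt

/-! ### The row -/

/-- The output of the blocks (R12 (b)) for one point. -/
def Blocks {κ : Subfield k} (E : IntermediateField κ K) {n m : ℕ} (V : ValuationSubring K)
    (s : Fin n → k) (g h : Fin (m + 2) → K) (j₀ : Fin (m + 2)) : Prop :=
  ∀ v : Fin (m + 2) → k, (∀ l, V.valuation (h l / h j₀ - algebraMap k K (v l)) < 1) →
    ∀ l, l ≠ j₀ → ∀ i : Fin (m + 1), ∃ (T : Finset k) (α : Fin (m + 2) → k) (h' : K),
      Set.range s ⊆ (T : Set k) ∧ (∃ j, α j ∉ acl κ (T : Set k)) ∧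
      (∀ j : Fin (m + 1), g j.succ / g 0 ∈ extE E (acl κ (T : Set k))) ∧
      h j₀ / g 0 ^ (m + 2) ∈ extE E (acl κ (T : Set k)) ∧
      h' ∈ extE E (acl κ (T : Set k)) ∧
      (∀ l', l' ≠ l → h l' / h j₀ - algebraMap k K (v l') ∈ extE E (acl κ (T : Set k))) ∧
      h j₀ / g 0 ^ (m + 2) * (h l / h j₀ - algebraMap k K (v l)) =
        h' + ∑ j : Fin (m + 2), algebraMap k K (α j) * (g i.succ / g 0) ^ (j.1 + 1)

theorem val_eq_of_isMin {V : ValuationSubring K} {P : Submodule k K} {f g : K}
    (hf : IsMin V P f) (hg : IsMin V P g) : V.valuation (f / g) = 1 := by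
  refine le_antisymm ((V.valuation_le_one_iff _).2 (hg.div _ hf.mem)) ?_
  have h1 := (V.valuation_le_one_iff _).2 (hf.div _ hg.mem)
  rw [map_div₀] at h1 ⊢
  have hf0 : V.valuation f ≠ 0 := (Valuation.ne_zero_iff _).2 hf.ne
  have hg0 : V.valuation g ≠ 0 := (Valuation.ne_zero_iff _).2 hg.ne
  exact (one_le_div₀ (zero_lt_iff.2 hg0)).2 ((div_le_one₀ (zero_lt_iff.2 hf0)).1 h1)

theorem gp_core (hC : ThmC k K) (hcl : IsAlgClosed k) (hK : (⊤ : IntermediateField k K).FG)
    {p : ℕ} (hp : p.Prime) (hchar : CharP k p) {m : ℕ} (htr : Algebra.trdeg k K = (m + 1 : ℕ))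
    (hdeg : degB m < p) {κ : Subfield k} {E : IntermediateField κ K} {x : Fin (m + 1) → K}
    (hFD : FD κ E x) {H : Submodule k K} (hM : IsModel H) (hfin : Fin' H)
    {Tb : ValuationSubring K → Prop}
    (hTb : ∀ (σ : k ≃ₐ[κ] k) (V : ValuationSubring K),
      Tb V ↔ Tb (V.comap (hFD.act σ : K →+* K)))
    {n : ℕ} {w : Fin n → K} (hwE : ∀ i, w i ∈ E) (hHw : H = Submodule.span k (Set.range w))
    {V : ValuationSubring K} (hV : ZDim k V) {b : Fin n} (hb : IsMin V H (w b)) {s : Fin n → k}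
    (hs : ∀ i, V.valuation (w i / w b - algebraMap k K (s i)) < 1) {g : Fin (m + 2) → K}
    (hg0 : IsMin V H (g 0)) {res : NV V H →ₐ[k] k}
    (hres : ResAt V res) {u : Fin (m + 1) → NV V H} (hu : ∀ l, (u l : K) = g l.succ / g 0)
    (hpt : PtOut res u {E | IsDiv (NV V H) E ∧ Tb E} (C₁ (m + 1)) (C₂ (m + 1)) (C₃ (m + 1)))
    {h : Fin (m + 2) → K} {j₀ : Fin (m + 2)} (hmin : IsMin V (H ^ (m + 2)) (h j₀))
    (hhm : ∀ i, h i ∈ H ^ (m + 2)) (hbl : Blocks E V s g h j₀) {y : Fin (m + 1) → NV V H}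
    (hy : Coord h j₀ res y) :
    Proper (NV V H).val res y ∧ Rho (NV V H).val res y ≤ degB m ∧
      ∀ v, IsDiv (NV V H) v → (ramV v y ≠ 0 ∨ Tb v) →
        ProperV (NV V H) v res (y ∘ Fin.castSucc) ∧
          RhoV (NV V H) v res (y ∘ Fin.castSucc) ≤ ramB m := by
  have hgN : IsMin V (H ^ (m + 2)) (g 0 ^ (m + 2)) := hg0.pow hV.ov _
  have hη : h j₀ / g 0 ^ (m + 2) ∈ NV V H :=
    TG.RV_le_NV (TG.RV_eq hg0 ▸ LU2.le_locV _ (TG15.pow_div_mem_ch H (g 0) _ (hhm j₀)))
  have hη1 : V.valuation (h j₀ / g 0 ^ (m + 2)) = 1 := val_eq_of_isMin hmin hgN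
  let η : NV V H := ⟨h j₀ / g 0 ^ (m + 2), hη⟩
  have hresη : res η ≠ 0 := fun h0 => by
    have h1 := (isResOf_of_resAt hV hres η).1 h0
    change V.valuation (h j₀ / g 0 ^ (m + 2)) < 1 at h1
    rw [hη1] at h1
    exact lt_irrefl _ h1
  -- the residues
  choose v hv using fun l => hV.res (h l / h j₀) (hmin.div _ (hhm l))
  have hyv : ∀ i, (y i : K) = h (j₀.succAbove i) / h j₀ - algebraMap k K (v (j₀.succAbove i)) := by
    intro i
    obtain ⟨h0, c, hc⟩ := hy i
    have h1 := (isResOf_of_resAt hV hres (y i)).1 h0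
    rw [hc] at h1 ⊢
    rw [res_unique' hV.ov h1 (hv (j₀.succAbove i))]
  have hN1 : 1 ≤ C₁ (m + 1) := Nat.mul_pos (Nat.succ_pos _) (Nat.factorial_pos _)
  have hNp : m + 2 < p := by
    refine lt_of_le_of_lt ?_ hdeg
    rw [degB]
    calc m + 2 ≤ (m + 3) ^ 1 * 1 := by rw [pow_one, mul_one]; omega
      _ ≤ (m + 3) ^ (m + 1) * C₁ (m + 1) :=
        Nat.mul_le_mul (Nat.pow_le_pow_right (by omega) (by omega)) hN1
  have hout := hC hcl p hp hchar (NV V H) res hpt.npt m htr (C₁ (m + 1)) (C₂ (m + 1)) (C₃ (m + 1))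
    (m + 2) (by omega) (by exact hdeg) hNp u y η hresη hpt.proper hpt.rho hpt.properR hpt.ir
    {E | IsDiv (NV V H) E ∧ Tb E} hpt.fin hpt.div hpt.rhoΘ (fun i => (hy i).1) ?_
  · refine ⟨hout.1, hout.2.1, fun v hv1 hv2 => ?_⟩
    exact hout.2.2 v hv1 (hv2.imp id fun h => ⟨hv1, h⟩)
  intro l i _
  obtain ⟨T, α, h', hT, hα, hTu, hTη, hTh', hTy, heq⟩ :=
    hbl v hv (j₀.succAbove l) (Fin.succAbove_ne j₀ l) i
  have hh'eq : h' = ((η * y l - ∑ j : Fin (m + 2), algebraMap k (NV V H) (α j) * u i ^ (j.1 + 1) :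
      NV V H) : K) := by
    have h1 : ((η * y l - ∑ j : Fin (m + 2), algebraMap k (NV V H) (α j) * u i ^ (j.1 + 1) :
        NV V H) : K) = h j₀ / g 0 ^ (m + 2) * (y l : K) -
          ∑ j : Fin (m + 2), algebraMap k K (α j) * (u i : K) ^ (j.1 + 1) := by
      push_cast
      rfl
    rw [h1, hyv, hu, heq]
    ring
  have hh'mem : h' ∈ NV V H := by rw [hh'eq]; exact Subtype.property _
  refine ⟨α, ⟨h', hh'mem⟩, ?_, ?_⟩
  · have h1 : (⟨h', hh'mem⟩ : NV V H) =
        η * y l - ∑ j : Fin (m + 2), algebraMap k (NV V H) (α j) * u i ^ (j.1 + 1) :=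
      Subtype.ext hh'eq
    rw [h1]
    ring
  · refine r12a hK hFD hwE hHw hM hfin hV hb.ne hs hT hα ?_ ?_
    · rintro z (rfl | rfl | ⟨j, rfl⟩ | ⟨j, hj, rfl⟩)
      · exact hTh'
      · exact hTη
      · change ((u j : NV V H) : K) ∈ _
        rw [hu]
        exact hTu j
      · change ((y j : NV V H) : K) ∈ _
        rw [hyv]
        exact hTy _ fun h1 => hj (Fin.succAbove_right_injective h1)
    · intro τ σ hSL hfix hS v
      have hσ : ∀ c ∈ κ, σ c = c := by
        intro c hc
        have h1 := hSL c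
        have h2 : algebraMap k K c ∈ E := E.algebraMap_mem ⟨c, hc⟩
        rw [hfix _ h2] at h1
        exact ((algebraMap k K).injective h1).symm
      let σ' : k ≃ₐ[κ] k := AlgEquiv.ofRingEquiv (f := σ) fun c => hσ c c.2
      have hτ : ∀ z, hFD.act σ' z = τ z := fun z =>
        hFD.act_unique σ' (τ : K →+* K) hSL hfix z
      have hττ : ((hFD.act σ' : K ≃+* K) : K →+* K) = (τ : K →+* K) := RingHom.ext hτ
      have h3 := hTb σ' v
      rw [hττ] at h3
      constructor
      · rintro ⟨h1, h2⟩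
        exact ⟨h1.comap τ hS, h3.1 h2⟩
      · rintro ⟨h1, h2⟩
        refine ⟨?_, h3.2 h2⟩
        have h4 := h1.comap τ.symm fun z => by
          rw [hS (τ.symm z), RingEquiv.apply_symm_apply]
        have h5 : (v.comap (τ : K →+* K)).comap (τ.symm : K →+* K) = v := by
          ext z
          rw [ValuationSubring.mem_comap, ValuationSubring.mem_comap]
          change τ (τ.symm z) ∈ v ↔ z ∈ v
          rw [RingEquiv.apply_symm_apply]
        rwa [h5] at h4

theorem ne_of_generic {κ : Subfield k} {J : Type} [Fintype J] [Nonempty J] {β : J → K}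
    (hβ : LinearIndependent k β) {m : ℕ} {a : Fin m × J → k} (ha : AlgebraicIndependent κ a)
    (i : Fin m) : ∑ j, a (i, j) • β j ≠ 0 := by
  intro h0
  obtain ⟨j⟩ := (inferInstance : Nonempty J)
  exact ha.ne_zero (i, j) (Fintype.linearIndependent_iff.1 hβ (fun j => a (i, j)) h0 j)

theorem exists_fin_range {K : Type u} {F : Set K} (hF : F.Finite) : ∃ (n : ℕ) (w : Fin n → K),
    Set.range w = F := by
  have := hF.to_subtype
  obtain ⟨n, ⟨e⟩⟩ := Finite.exists_equiv_fin F
  refine ⟨n, fun i => (e.symm i : K), ?_⟩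
  ext z
  constructor
  · rintro ⟨i, rfl⟩
    exact (e.symm i).2
  · intro hz
    exact ⟨e ⟨z, hz⟩, congrArg Subtype.val (e.symm_apply_apply ⟨z, hz⟩)⟩

/-- The blocks for the family `β`. -/
theorem blocks_of {m : ℕ} {κ : Subfield k} {E : IntermediateField κ K}
    {x : Fin (m + 1) → K} (hFD : FD κ E x) {H : Submodule k K} {J : Type} [Fintype J]
    {β : J → K} {a : Fin (m + 2) × J → k} {h : Fin (m + 2) → K} (hβE : ∀ j, β j ∈ E)
    (hβ : LinearIndependent k β) (hsp : Submodule.span k (Set.range β) = H ^ (m + 2))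
    (ha : AlgebraicIndependent κ a) (heq : ∀ i, h i = ∑ j, a (i, j) • β j)
    {n : ℕ} {w : Fin n → K} (hwE : ∀ i, w i ∈ E) (hHw : H = Submodule.span k (Set.range w))
    {V : ValuationSubring K} (hV : ZDim k V) {b : Fin n} (hb : w b ≠ 0) {s : Fin n → k}
    (hs : ∀ i, V.valuation (w i / w b - algebraMap k K (s i)) < 1)
    {c : Fin (m + 2) × Fin n → k}
    (hc : AlgebraicIndependent (acl κ (Set.range s ∪ Set.range a)) c)
    {g : Fin (m + 2) → K} (hg : g = tup (w b) (fun j => w j - s j • w b) c)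
    (hind : AlgebraicIndependent k (fun l : Fin (m + 1) => g l.succ / g 0))
    {j₀ : Fin (m + 2)} (hval : V.valuation (h j₀) = V.valuation (g 0 ^ (m + 2))) :
    Blocks E V s g h j₀ := by
  let eJ : J ≃ Fin (Fintype.card J) := Fintype.equivFin J
  let B : Fin (Fintype.card J) → K := fun i => β (eJ.symm i)
  have hBr : Set.range B = Set.range β := eJ.symm.surjective.range_comp β
  have hBli : LinearIndependent k B := hβ.comp _ eJ.symm.injective
  have hβE' : Set.range β ⊆ (E : Set K) := by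
    rintro _ ⟨i, rfl⟩
    exact hβE i
  have hwE' : Set.range w ⊆ (E : Set K) := by
    rintro _ ⟨i, rfl⟩
    exact hwE i
  have hBsp : Submodule.span κ (Set.range B) = Submodule.span κ (Set.range w) ^ (m + 2) := by
    rw [hBr]
    refine span_pow_of_FD hFD hwE' hβE' ?_
    rw [hsp, hHw]
  let f : Fin (m + 2) × Fin (Fintype.card J) → Fin (m + 2) × J := fun q => (q.1, eJ.symm q.2)
  have hf : Function.Bijective f :=
    Function.bijective_iff_has_inverse.2 ⟨fun q => (q.1, eJ q.2),
      fun q => Prod.ext rfl (eJ.apply_symm_apply q.2),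
      fun q => Prod.ext rfl (eJ.symm_apply_apply q.2)⟩
  have ha' : AlgebraicIndependent κ (a ∘ f) := ha.comp f hf.1
  have har : Set.range (a ∘ f) = Set.range a := hf.2.range_comp a
  have hh : ∀ l, h l = ∑ i, (a ∘ f) (l, i) • B i := by
    intro l
    rw [heq l]
    exact (Equiv.sum_comp eJ.symm fun j => a (l, j) • β j).symm
  have hc' : AlgebraicIndependent (acl κ (Set.range s ∪ Set.range (a ∘ f))) c := by
    rw [har]
    exact hc
  intro v hv l hl i
  exact exists_blocks hFD (by omega) hwE hBli hBsp ha' hV.ov hb hs hc' hg hind hh hval hv l hl i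

/-- **Row GP** from `ThmC`. -/
theorem rowGP_of (hC : ThmC k K) : RowGP k K := by
  intro hcl hK p hp hchar m htr hdeg κ E x hFD H Tb J _ β a h hG hPt hbpf V hV j₀ hj₀ res hres y hy
  -- the basis of the model
  obtain ⟨F, hF, hFE, hHF⟩ := hG.base
  obtain ⟨n, w, hw⟩ := exists_fin_range hF
  have hHw : H = Submodule.span k (Set.range w) := by rw [hw]; exact hHF
  have hwE : ∀ i, w i ∈ E := fun i => hFE (hw ▸ ⟨i, rfl⟩)
  -- the minimal element
  obtain ⟨b, hb⟩ : ∃ b, IsMin V H (w b) := by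
    obtain ⟨f, hf, hmin⟩ := TG.exists_isMin_mem (k := k) (V := V) hV.ov hF.toFinset (by
      by_contra hcon
      push Not at hcon
      refine hG.model.ne ?_
      rw [hHF, Submodule.span_eq_bot]
      exact fun z hz => hcon z (hF.mem_toFinset.2 hz))
    rw [Set.Finite.coe_toFinset, ← hHF] at hmin
    have h1 : f ∈ Set.range w := by rw [hw]; exact hF.mem_toFinset.1 hf
    obtain ⟨b, rfl⟩ := h1
    exact ⟨b, hmin⟩
  have hwH : ∀ i, w i ∈ H := fun i => by rw [hHw]; exact Submodule.subset_span ⟨i, rfl⟩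
  choose s hs using fun i => hV.res (w i / w b) (hb.div _ (hwH i))
  have hspan : Submodule.span k (Set.range fun j => w j - s j • w b) = hx V H :=
    span_sub hHw hb hs
  have hemem : ∀ j, w j - s j • w b ∈ hx V H := fun j => hspan ▸ Submodule.subset_span ⟨j, rfl⟩
  -- the generic coordinates
  have hbig : Big (acl κ (Set.range s ∪ Set.range a)) :=
    acl_big ((Set.finite_range s).union (Set.finite_range a)) hG.big
  obtain ⟨c, hc, hcPt⟩ := hPt V hV (w b) hb n _ hspan _ hbig
  obtain ⟨g, hg⟩ : ∃ g : Fin (m + 2) → K, g = tup (w b) (fun j => w j - s j • w b) c := ⟨_, rfl⟩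
  rw [← hg] at hcPt
  have hg0 : IsMin V H (g 0) := by rw [hg]; exact tup_min hb hemem c
  have hgs : ∀ l : Fin (m + 1), g l.succ ∈ hx V H := by rw [hg]; exact tup_succ_mem hemem c
  have hu' : ∀ l : Fin (m + 1), g l.succ / g 0 ∈ NV V H := fun l =>
    TG.RV_le_NV (TG.div_mem_RV hg0 (hgs l).1)
  have hpt := hcPt V hV rfl res (isResOf_of_resAt hV hres) (fun l => ⟨g l.succ / g 0, hu' l⟩)
    fun l => rfl
  have hind0 := hpt.npt.algebraicIndependent htr hpt.proper
  have hind : AlgebraicIndependent k (fun l : Fin (m + 1) => g l.succ / g 0) := hind0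
  -- the chart
  have hhm : ∀ i, h i ∈ H ^ (m + 2) := by
    intro i
    rw [hG.eq i, ← hG.span]
    exact Submodule.sum_mem _ fun j _ => Submodule.smul_mem _ _ (Submodule.subset_span ⟨j, rfl⟩)
  have hne : ∀ i, h i ≠ 0 := by
    intro i
    have hJ : Nonempty J := by
      by_contra hcon
      rw [not_nonempty_iff] at hcon
      obtain ⟨j, hj⟩ := hbpf V hV
      have h1 := hj.mem
      rw [← hG.span, Set.range_eq_empty, Submodule.span_empty, Submodule.mem_bot] at h1
      exact hj.ne h1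
    rw [hG.eq i]
    exact ne_of_generic hG.lin hG.ind i
  have hmin : IsMin V (H ^ (m + 2)) (h j₀) := by
    obtain ⟨j, hj⟩ := hbpf V hV
    refine ⟨hhm j₀, hne j₀, fun z hz => ?_⟩
    have h1 : z / h j₀ = z / h j * (h j / h j₀) := by
      rw [div_mul_div_cancel₀ hj.ne]
    rw [h1]
    exact mul_mem (hj.div z hz) (hj₀ j)
  have hgN : IsMin V (H ^ (m + 2)) (g 0 ^ (m + 2)) := hg0.pow hV.ov _
  have hval : V.valuation (h j₀) = V.valuation (g 0 ^ (m + 2)) := by
    have h1 := val_eq_of_isMin hmin hgN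
    have h0 : V.valuation (g 0 ^ (m + 2)) ≠ 0 := (Valuation.ne_zero_iff _).2 hgN.ne
    rw [map_div₀] at h1
    exact (div_eq_one_iff_eq h0).1 h1
  have hbl := blocks_of hFD hG.mem hG.lin hG.span hG.ind hG.eq hwE hHw hV hb.ne hs hc hg hind
    hval
  exact gp_core hC hcl hK hp hchar htr hdeg hFD hG.model hG.fin' hG.tb hwE hHw hV hb hs hg0 hres
    (fun l => rfl) hpt hmin hhm hbl hy

end Pool.Agent.TGTop
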